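import Mathlib

/-!
# MP_2e2eba_pr: percolation operators and their chaos approximations (definitions)
-/

open MeasureTheory ProbabilityTheory Filter Topology

namespace Pool.Agent.Lib.MP_2e2eba_pr

/-- Sites of the lattice `ℤ^d`. -/
abbrev Site (d : ℕ) : Type := Fin d → ℤ

/-- Configurations in `{0,1}^{ℤ^d}`; `true` stands for `1` and `false` for `0`. -/
abbrev Config (d : ℕ) : Type := Site d → Bool

/-- The product over all sites of the Bernoulli measure giving mass `θ` to `1 = true` and
mass `1 - θ` to `0 = false`. -/
noncomputable def noise (d : ℕ) (θ : unitInterval) : ProbabilityMeasure (Config d) :=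
  ⟨Measure.infinitePi fun _ : Site d => bernoulliMeasure true false θ, inferInstance⟩

/-- The new configuration `y`, given the old one `x` and the set of sites `{s | e s = 1}` at which
`y` is forced to be `1`: at the other sites `y s = min_i x (s + v i)`. -/
noncomputable def step {d n : ℕ} (v : Fin n → Site d) (e x : Config d) : Config d :=
  fun s => if e s = true then true else ⨅ i : Fin n, x (s + v i)

theorem step_apply_eq_true {d n : ℕ} (v : Fin n → Site d) (e x : Config d) (s : Site d) :
    step v e x s = true ↔ e s = true ∨ ∀ i, x (s + v i) = true := by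
  by_cases hz : e s = true
  · simp [step, hz]
  · simpa [step, hz] using (iInf_eq_top (s := fun i => x (s + v i)))

theorem measurable_step {d n : ℕ} (v : Fin n → Site d) :
    Measurable fun z : Config d × Config d => step v z.1 z.2 := by
  refine measurable_pi_lambda _ fun s => measurable_to_bool ?_
  have h : (fun z : Config d × Config d => step v z.1 z.2 s) ⁻¹' {true} =
      {z | z.1 s = true} ∪ ⋂ i : Fin n, {z | z.2 (s + v i) = true} := by
    ext z
    simp [step_apply_eq_true]
  have h1 : ∀ s : Site d, Measurable fun z : Config d × Config d => z.1 s := fun s =>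
    (measurable_pi_apply s).comp measurable_fst
  have h2 : ∀ s : Site d, Measurable fun z : Config d × Config d => z.2 s := fun s =>
    (measurable_pi_apply s).comp measurable_snd
  rw [h]
  exact (h1 s (measurableSet_singleton true)).union
    (MeasurableSet.iInter fun i => h2 _ (measurableSet_singleton true))

/-- The percolation operator `P(θ)`: it maps the law of `x` to the law of `y`. -/
noncomputable def percOp {d n : ℕ} (v : Fin n → Site d) (θ : unitInterval)
    (μ : ProbabilityMeasure (Config d)) : ProbabilityMeasure (Config d) :=
  ((noise d θ).prod μ).map (measurable_step v).aemeasurable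

/-- The operator `chaos`: the product measure with the same one-site marginals. -/
noncomputable def chaos {d : ℕ} (μ : ProbabilityMeasure (Config d)) :
    ProbabilityMeasure (Config d) :=
  ⟨Measure.infinitePi fun s : Site d =>
    ((μ.map (measurable_pi_apply s).aemeasurable : ProbabilityMeasure Bool) : Measure Bool),
    inferInstance⟩

/-- Point mass on all zeroes. -/
noncomputable def δ₀ (d : ℕ) : ProbabilityMeasure (Config d) := diracProba fun _ => false

/-- Point mass on all ones. -/
noncomputable def δ₁ (d : ℕ) : ProbabilityMeasure (Config d) := diracProba fun _ => true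

/-- The critical value `θ* = inf {θ | P(θ)^t δ₀ → δ₁ weakly}`. -/
noncomputable def thetaStar {d n : ℕ} (v : Fin n → Site d) : ℝ :=
  sInf {r : ℝ | ∃ θ : unitInterval, (θ : ℝ) = r ∧
    Tendsto (fun t : ℕ => (percOp v θ)^[t] (δ₀ d)) atTop (𝓝 (δ₁ d))}

/-- `p_k`: the density of ones (at the origin) of the `k`-th iterate of `chaos ∘ P(θ)^T`,
started from `δ₀`. -/
noncomputable def dens {d n : ℕ} (v : Fin n → Site d) (θ : unitInterval) (T k : ℕ) : ℝ :=
  (((chaos ∘ (percOp v θ)^[T])^[k] (δ₀ d) : ProbabilityMeasure (Config d)) :
    Measure (Config d)).real {x | x 0 = true}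

/-- The critical point `θ*_T = inf {θ | lim_k p_k = 1}` of `chaos (P^T)`. -/
noncomputable def thetaStarT {d n : ℕ} (v : Fin n → Site d) (T : ℕ) : ℝ :=
  sInf {r : ℝ | ∃ θ : unitInterval, (θ : ℝ) = r ∧ Tendsto (dens v θ T) atTop (𝓝 1)}

end Pool.Agent.Lib.MP_2e2eba_pr
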