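import Pool.Agent.Lib.MP_2e2eba_pr.Thin

/-!
# Iterating the thinning operator
-/

open Finset Filter Topology

set_option linter.unusedSectionVars false

namespace Pool.Agent.Lib.MP_2e2eba_pr

variable {α : Type*} [DecidableEq α]

/-- `iter N q T f A` is the expectation of `f A_T` for the chain `A_0 = A`,
`A_{t+1} = N (thinning of A_t)`. -/
noncomputable def iter (N : Finset α → Finset α) (q : ℝ) :
    ℕ → (Finset α → ℝ) → Finset α → ℝ
  | 0, f => f
  | T + 1, f => fun A => thin q A (fun ξ => iter N q T f (N ξ))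

variable (N : Finset α → Finset α)

theorem iter_zero (q : ℝ) (f : Finset α → ℝ) : iter N q 0 f = f := rfl

theorem iter_succ (q : ℝ) (T : ℕ) (f : Finset α → ℝ) (A : Finset α) :
    iter N q (T + 1) f A = thin q A (fun ξ => iter N q T f (N ξ)) := rfl

theorem iter_mono {q : ℝ} (h0 : 0 ≤ q) (h1 : q ≤ 1) (T : ℕ) {f g : Finset α → ℝ}
    (h : ∀ A, f A ≤ g A) (A : Finset α) : iter N q T f A ≤ iter N q T g A := by
  induction T generalizing A with
  | zero => exact h A
  | succ T ih => exact thin_mono h0 h1 fun ξ _ => ih _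

theorem iter_const (q c : ℝ) (T : ℕ) (A : Finset α) : iter N q T (fun _ => c) A = c := by
  induction T generalizing A with
  | zero => rfl
  | succ T ih =>
    rw [iter_succ]
    exact (thin_congr fun ξ _ => ih _).trans (thin_const q c A)

theorem iter_sub (q : ℝ) (T : ℕ) (f g : Finset α → ℝ) (A : Finset α) :
    iter N q T (fun B => f B - g B) A = iter N q T f A - iter N q T g A := by
  induction T generalizing A with
  | zero => rfl
  | succ T ih =>
    rw [iter_succ, iter_succ, iter_succ, ← thin_sub]
    exact thin_congr fun ξ _ => ih _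

theorem iter_mul_left (q c : ℝ) (T : ℕ) (f : Finset α → ℝ) (A : Finset α) :
    iter N q T (fun B => c * f B) A = c * iter N q T f A := by
  induction T generalizing A with
  | zero => rfl
  | succ T ih =>
    rw [iter_succ, iter_succ, ← thin_mul_left]
    exact thin_congr fun ξ _ => ih _

theorem iter_nonneg {q : ℝ} (h0 : 0 ≤ q) (h1 : q ≤ 1) (T : ℕ) {f : Finset α → ℝ}
    (h : ∀ A, 0 ≤ f A) (A : Finset α) : 0 ≤ iter N q T f A := by
  have := iter_mono N h0 h1 T (f := fun _ => (0 : ℝ)) (g := f) h A
  rwa [iter_const] at this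

theorem iter_add_time (q : ℝ) (S T : ℕ) (f : Finset α → ℝ) (A : Finset α) :
    iter N q (S + T) f A = iter N q S (iter N q T f) A := by
  induction S generalizing A with
  | zero => rw [Nat.zero_add]; rfl
  | succ S ih =>
    rw [Nat.succ_add, iter_succ, iter_succ]
    exact thin_congr fun ξ _ => ih _

theorem thin_map (τ : α ↪ α) (q : ℝ) (A : Finset α) (f : Finset α → ℝ) :
    thin q (A.map τ) f = thin q A (fun ξ => f (ξ.map τ)) := by
  induction A using Finset.induction_on generalizing f with
  | empty => simp [thin_empty]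
  | insert a A ha ih =>
    have h1 : τ a ∉ A.map τ := by simpa using ha
    rw [Finset.map_insert, thin_insert q h1, thin_insert q ha, ih, ih]
    simp only [Finset.map_insert]

theorem iter_map (τ : α ↪ α) (hN : ∀ A, N (A.map τ) = (N A).map τ) (q : ℝ) (T : ℕ)
    (f : Finset α → ℝ) (hf : ∀ A, f (A.map τ) = f A) (A : Finset α) :
    iter N q T f (A.map τ) = iter N q T f A := by
  induction T generalizing A with
  | zero => exact hf A
  | succ T ih =>
    rw [iter_succ, iter_succ, thin_map]
    refine thin_congr fun ξ _ => ?_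
    rw [hN, ih]

/-- Antitone functions stay antitone. -/
theorem iter_antitone (hN : Monotone N) {q : ℝ} (h0 : 0 ≤ q) (h1 : q ≤ 1) (T : ℕ)
    (f : Finset α → ℝ) (hf : Antitone f) : Antitone (iter N q T f) := by
  induction T with
  | zero => exact hf
  | succ T ih =>
    intro A B hAB
    rw [iter_succ, iter_succ]
    have h2 : B ∩ A = A := Finset.inter_eq_right.2 hAB
    have h3 := thin_inter q B A (fun ξ => iter N q T f (N ξ))
    rw [h2] at h3
    rw [← h3]
    exact thin_mono h0 h1 fun ξ _ => ih (hN Finset.inter_subset_left)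

/-- The positive correlation property is preserved. -/
theorem iter_supermul (hNm : Monotone N) (hNu : ∀ A B, N (A ∪ B) = N A ∪ N B) {q : ℝ}
    (h0 : 0 ≤ q) (h1 : q ≤ 1) (T : ℕ) (f : Finset α → ℝ) (hf : Antitone f)
    (hm : ∀ A B, f A * f B ≤ f (A ∪ B)) (A B : Finset α) :
    iter N q T f A * iter N q T f B ≤ iter N q T f (A ∪ B) := by
  induction T generalizing A B with
  | zero => exact hm A B
  | succ T ih =>
    have ha := iter_antitone N hNm h0 h1 T f hf
    rw [iter_succ, iter_succ, iter_succ]
    have h3 := thin_inter q (A ∪ B) A (fun ξ => iter N q T f (N ξ))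
    have h4 := thin_inter q (A ∪ B) B (fun ξ => iter N q T f (N ξ))
    have h5 : (A ∪ B) ∩ A = A := Finset.inter_eq_right.2 Finset.subset_union_left
    have h6 : (A ∪ B) ∩ B = B := Finset.inter_eq_right.2 Finset.subset_union_right
    rw [h5] at h3
    rw [h6] at h4
    rw [← h3, ← h4]
    refine (thin_mul_le h0 h1 (A ∪ B) _ _ ?_ ?_).trans (thin_mono h0 h1 fun ξ hξ => ?_)
    · exact fun ξ η h => ha (hNm (Finset.inter_subset_inter_right h))
    · exact fun ξ η h => ha (hNm (Finset.inter_subset_inter_right h))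
    · refine (ih _ _).trans (le_of_eq ?_)
      rw [← hNu, ← Finset.inter_union_distrib_left, Finset.inter_eq_left.2 hξ]

/-- Subadditivity is preserved. -/
theorem iter_subadd (hNm : Monotone N) (hNu : ∀ A B, N (A ∪ B) = N A ∪ N B) {q : ℝ}
    (h0 : 0 ≤ q) (h1 : q ≤ 1) (T : ℕ) (f : Finset α → ℝ)
    (hm : ∀ A B, f (A ∪ B) ≤ f A + f B) (A B : Finset α) :
    iter N q T f (A ∪ B) ≤ iter N q T f A + iter N q T f B := by
  induction T generalizing A B with
  | zero => exact hm A B
  | succ T ih =>
    rw [iter_succ, iter_succ, iter_succ]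
    have h3 := thin_inter q (A ∪ B) A (fun ξ => iter N q T f (N ξ))
    have h4 := thin_inter q (A ∪ B) B (fun ξ => iter N q T f (N ξ))
    have h5 : (A ∪ B) ∩ A = A := Finset.inter_eq_right.2 Finset.subset_union_left
    have h6 : (A ∪ B) ∩ B = B := Finset.inter_eq_right.2 Finset.subset_union_right
    rw [h5] at h3
    rw [h6] at h4
    rw [← h3, ← h4, ← thin_add]
    refine thin_mono h0 h1 fun ξ hξ => ?_
    refine le_trans (le_of_eq ?_) (ih _ _)
    rw [← hNu, ← Finset.inter_union_distrib_left, Finset.inter_eq_left.2 hξ]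

theorem iter_card_le (hNm : Monotone N) (hNu : ∀ A B, N (A ∪ B) = N A ∪ N B) (hNe : N ∅ = ∅)
    {q : ℝ} (h0 : 0 ≤ q) (h1 : q ≤ 1) (T : ℕ) (χ : ℝ)
    (hχ : ∀ a, iter N q T (fun B => (B.card : ℝ)) {a} = χ) (A : Finset α) :
    iter N q T (fun B => (B.card : ℝ)) A ≤ A.card * χ := by
  have hempty : iter N q T (fun B => (B.card : ℝ)) ∅ = 0 := by
    clear hχ
    induction T with
    | zero => simp [iter_zero]
    | succ T ih => rw [iter_succ, thin_empty, hNe, ih]
  induction A using Finset.induction_on with
  | empty => rw [hempty]; simp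
  | insert a A ha ih =>
    have h2 := iter_subadd N hNm hNu h0 h1 T (fun B => (B.card : ℝ))
      (fun A B => by exact_mod_cast Finset.card_union_le A B) {a} A
    rw [hχ a] at h2
    rw [Finset.insert_eq]
    rw [← Finset.insert_eq, Finset.card_insert_of_notMem ha, Finset.insert_eq]
    push_cast
    linarith

theorem iter_pow_le (hNm : Monotone N) (hNu : ∀ A B, N (A ∪ B) = N A ∪ N B) (hNe : N ∅ = ∅)
    {q : ℝ} (h0 : 0 ≤ q) (h1 : q ≤ 1) (T : ℕ) {p : ℝ} (hp0 : 0 ≤ p) (hp1 : p ≤ 1) (F : ℝ)
    (hF : ∀ a, iter N q T (fun B => p ^ B.card) {a} = F) (A : Finset α) :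
    F ^ A.card ≤ iter N q T (fun B => p ^ B.card) A := by
  have hempty : iter N q T (fun B => p ^ B.card) ∅ = 1 := by
    clear hF
    induction T with
    | zero => simp [iter_zero]
    | succ T ih => rw [iter_succ, thin_empty, hNe, ih]
  have hanti : Antitone fun B : Finset α => p ^ B.card := fun A B h =>
    pow_le_pow_of_le_one hp0 hp1 (Finset.card_le_card h)
  induction A using Finset.induction_on with
  | empty => rw [hempty]; simp
  | insert a A ha ih =>
    have h2 := iter_supermul N hNm hNu h0 h1 T (fun B => p ^ B.card) hanti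
      (fun A B => by
        show p ^ A.card * p ^ B.card ≤ p ^ (A ∪ B).card
        rw [← pow_add]
        exact pow_le_pow_of_le_one hp0 hp1 (Finset.card_union_le A B)) {a} A
    have hF0 : 0 ≤ F := by
      rw [← hF a]
      exact iter_nonneg N h0 h1 T (fun B => pow_nonneg hp0 _) _
    rw [hF a, ← Finset.insert_eq] at h2
    rw [Finset.card_insert_of_notMem ha, pow_succ']
    exact (mul_le_mul_of_nonneg_left ih hF0).trans h2

end Pool.Agent.Lib.MP_2e2eba_pr
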