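import Pool.Agent.Lib.MP_2e2eba_pr.Meas

/-!
# Convergence of the chaos critical points
-/

open Finset Filter Topology MeasureTheory ProbabilityTheory

namespace Pool.Agent.Lib.MP_2e2eba_pr

variable {d n : ℕ} (v : Fin n → Site d)

/-! ### Translation invariance -/

theorem nb_map (a : Site d) (A : Finset (Site d)) :
    nb v (A.map (addRightEmbedding a)) = (nb v A).map (addRightEmbedding a) := by
  ext s
  simp only [nb, Finset.mem_biUnion, Finset.mem_map, Finset.mem_image, Finset.mem_univ, true_and,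
    addRightEmbedding_apply]
  constructor
  · rintro ⟨_, ⟨b, hb, rfl⟩, i, rfl⟩
    exact ⟨b + v i, ⟨b, hb, i, rfl⟩, by abel⟩
  · rintro ⟨_, ⟨b, hb, i, rfl⟩, rfl⟩
    exact ⟨b + a, ⟨b, hb, rfl⟩, i, by abel⟩

theorem iter_singleton (q : ℝ) (T : ℕ) (f : Finset (Site d) → ℝ)
    (hf : ∀ a A, f (A.map (addRightEmbedding a)) = f A) (a : Site d) :
    iter (nb v) q T f {a} = iter (nb v) q T f {0} := by
  have h := iter_map (nb v) (addRightEmbedding a) (nb_map v a) q T f (hf a) {0}
  rwa [Finset.map_singleton, addRightEmbedding_apply, zero_add] at h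

theorem iter_pow_singleton (q p : ℝ) (T : ℕ) (a : Site d) :
    iter (nb v) q T (fun B => p ^ B.card) {a} = iter (nb v) q T (fun B => p ^ B.card) {0} :=
  iter_singleton v q T _ (fun a A => by simp) a

theorem iter_card_singleton (q : ℝ) (T : ℕ) (a : Site d) :
    iter (nb v) q T (fun B => (B.card : ℝ)) {a} =
      iter (nb v) q T (fun B => (B.card : ℝ)) {0} :=
  iter_singleton v q T _ (fun a A => by simp) a

/-! ### The chaos iterates -/

theorem dens_eq (θ : unitInterval) (T k : ℕ) :
    dens v θ T k = onesProb ((chaos ∘ (percOp v θ)^[T])^[k] (δ₀ d)) {0} := by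
  unfold dens onesProb
  congr 1
  ext x
  simp

theorem onesProb_chaos_iterate (θ : unitInterval) (T k : ℕ) :
    (∀ A, onesProb ((chaos ∘ (percOp v θ)^[T])^[k] (δ₀ d)) A = dens v θ T k ^ A.card) ∧
    dens v θ T (k + 1) =
      iter (nb v) (1 - (θ : ℝ)) T (fun B => dens v θ T k ^ B.card) {0} := by
  have step : ∀ k, (∀ A, onesProb ((chaos ∘ (percOp v θ)^[T])^[k] (δ₀ d)) A =
      dens v θ T k ^ A.card) → ∀ A, onesProb ((chaos ∘ (percOp v θ)^[T])^[k + 1] (δ₀ d)) A =
      iter (nb v) (1 - (θ : ℝ)) T (fun B => dens v θ T k ^ B.card) {0} ^ A.card := by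
    intro k hk A
    rw [Function.iterate_succ_apply', Function.comp_apply, onesProb_chaos]
    have h1 : ∀ s ∈ A, onesProb ((percOp v θ)^[T] ((chaos ∘ (percOp v θ)^[T])^[k] (δ₀ d))) {s} =
        iter (nb v) (1 - (θ : ℝ)) T (fun B => dens v θ T k ^ B.card) {0} := by
      intro s _
      rw [onesProb_iterate]
      have : onesProb ((chaos ∘ (percOp v θ)^[T])^[k] (δ₀ d)) =
          fun B => dens v θ T k ^ B.card := funext hk
      rw [this, iter_pow_singleton]
    rw [Finset.prod_congr rfl h1, Finset.prod_const]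
  have main : ∀ k, ∀ A, onesProb ((chaos ∘ (percOp v θ)^[T])^[k] (δ₀ d)) A =
      dens v θ T k ^ A.card := by
    intro k
    induction k with
    | zero =>
      intro A
      rw [dens_eq]
      simp only [Function.iterate_zero, id_eq, onesProb_zero]
      unfold e0
      by_cases hA : A = ∅
      · subst hA; simp
      · have : A.card ≠ 0 := by simpa [Finset.card_eq_zero] using hA
        simp [hA]
    | succ k ih =>
      intro A
      rw [dens_eq, step k ih, step k ih, Finset.card_singleton, pow_one]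
  refine ⟨main k, ?_⟩
  rw [dens_eq, step k (main k), Finset.card_singleton, pow_one]

theorem dens_zero (θ : unitInterval) (T : ℕ) : dens v θ T 0 = 0 := by
  rw [dens_eq]
  simp [onesProb_zero, e0]

theorem dens_nonneg (θ : unitInterval) (T k : ℕ) : 0 ≤ dens v θ T k := measureReal_nonneg

theorem dens_le_one (θ : unitInterval) (T k : ℕ) : dens v θ T k ≤ 1 := measureReal_le_one

/-! ### Comparison from below -/

theorem iter_e0_nonneg {q : ℝ} (h0 : 0 ≤ q) (h1 : q ≤ 1) (T : ℕ) (A : Finset (Site d)) :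
    0 ≤ iter (nb v) q T e0 A :=
  iter_nonneg _ h0 h1 T (fun B => by unfold e0; split_ifs <;> norm_num) _

theorem iter_e0_mono {q : ℝ} (h0 : 0 ≤ q) (h1 : q ≤ 1) (A : Finset (Site d)) :
    Monotone fun T => iter (nb v) q T e0 A := by
  refine monotone_nat_of_le_succ fun T => ?_
  rw [iter_add_time]
  refine iter_mono _ h0 h1 T (fun B => ?_) A
  by_cases hB : B = ∅
  · subst hB
    rw [iter_succ, thin_empty, (nbh v).empty, iter_zero]
  · have := iter_e0_nonneg v h0 h1 1 B
    simpa [e0, hB] using this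

theorem dens_pow_le (θ : unitInterval) (T k : ℕ) (A : Finset (Site d)) :
    dens v θ T k ^ A.card ≤ iter (nb v) (1 - (θ : ℝ)) (k * T) e0 A := by
  have h0 : 0 ≤ 1 - (θ : ℝ) := by linarith [θ.2.2]
  have h1 : 1 - (θ : ℝ) ≤ 1 := by linarith [θ.2.1]
  induction k generalizing A with
  | zero =>
    rw [Nat.zero_mul, iter_zero, dens_zero]
    unfold e0
    by_cases hA : A = ∅
    · subst hA; simp
    · have : A.card ≠ 0 := by simpa [Finset.card_eq_zero] using hA
      simp [hA]
  | succ k ih =>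
    rw [(onesProb_chaos_iterate v θ T k).2, Nat.succ_mul, Nat.add_comm, iter_add_time]
    refine (iter_pow_le (nb v) (nbh v).mono (nbh v).union (nbh v).empty h0 h1 T
      (dens_nonneg v θ T k) (dens_le_one v θ T k) _ (iter_pow_singleton v _ _ T) A).trans ?_
    exact iter_mono _ h0 h1 T (fun B => ih B) A

/-! ### Weak convergence to `δ₁` -/

theorem tendsto_δ₁ (μ : ℕ → ProbabilityMeasure (Config d))
    (h : ∀ A, Tendsto (fun t => onesProb (μ t) A) atTop (𝓝 1)) :
    Tendsto μ atTop (𝓝 (δ₁ d)) := by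
  refine tendsto_of_forall_isOpen_le_liminf_nat' fun G hG => ?_
  by_cases hmem : (fun _ => true : Config d) ∈ G
  · -- a cylinder around the all ones configuration
    obtain ⟨A, hA⟩ : ∃ A : Finset (Site d), {x : Config d | ∀ s ∈ A, x s = true} ⊆ G := by
      have h2 := isOpen_pi_iff.1 hG _ hmem
      obtain ⟨A, u, hu, hsub⟩ := h2
      refine ⟨A, fun x hx => hsub ?_⟩
      intro s hs
      have := hx s hs
      rw [this]
      exact (hu s hs).2
    have hlim : Tendsto (fun t => (μ t : Measure (Config d))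
        {x : Config d | ∀ s ∈ A, x s = true}) atTop (𝓝 1) := by
      have h3 := (ENNReal.continuous_ofReal.tendsto 1).comp (h A)
      simp only [ENNReal.ofReal_one] at h3
      refine h3.congr fun t => ?_
      simp only [Function.comp_apply, onesProb]
      exact ofReal_measureReal
    calc (δ₁ d : Measure (Config d)) G ≤ 1 := prob_le_one
      _ = liminf (fun t => (μ t : Measure (Config d))
            {x : Config d | ∀ s ∈ A, x s = true}) atTop := hlim.liminf_eq.symm
      _ ≤ liminf (fun t => (μ t : Measure (Config d)) G) atTop :=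
          liminf_le_liminf (Eventually.of_forall fun t => measure_mono hA)
  · have : (δ₁ d : Measure (Config d)) G = 0 := by
      rw [δ₁, diracProba_toMeasure_apply' _ hG.measurableSet]
      simp [hmem]
    rw [this]
    exact zero_le

theorem tendsto_onesProb (μ : ℕ → ProbabilityMeasure (Config d))
    (h : Tendsto μ atTop (𝓝 (δ₁ d))) :
    Tendsto (fun t => onesProb (μ t) {0}) atTop (𝓝 1) := by
  have hcl : IsClopen {x : Config d | ∀ s ∈ ({0} : Finset (Site d)), x s = true} := by
    have : {x : Config d | ∀ s ∈ ({0} : Finset (Site d)), x s = true} =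
        (fun x : Config d => x 0) ⁻¹' {true} := by
      ext x; simp
    rw [this]
    exact (isClopen_discrete _).preimage (continuous_apply 0)
  have hfr : (δ₁ d : Measure (Config d))
      (frontier {x : Config d | ∀ s ∈ ({0} : Finset (Site d)), x s = true}) = 0 := by
    rw [hcl.frontier_eq]
    exact measure_empty
  have h2 := ProbabilityMeasure.tendsto_measure_of_null_frontier_of_tendsto' h hfr
  have h3 : (δ₁ d : Measure (Config d))
      {x : Config d | ∀ s ∈ ({0} : Finset (Site d)), x s = true} = 1 := by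
    rw [δ₁, diracProba_toMeasure_apply' _ (measurableSet_ones _)]
    simp
  rw [h3] at h2
  have h4 := (ENNReal.tendsto_toReal ENNReal.one_ne_top).comp h2
  simpa [Function.comp_def, onesProb, Measure.real] using h4

/-! ### The two inclusions -/

theorem ergodic_of_chaos (θ : unitInterval) (T : ℕ)
    (h : Tendsto (dens v θ T) atTop (𝓝 1)) :
    Tendsto (fun t : ℕ => (percOp v θ)^[t] (δ₀ d)) atTop (𝓝 (δ₁ d)) := by
  have h0 : 0 ≤ 1 - (θ : ℝ) := by linarith [θ.2.2]
  have h1 : 1 - (θ : ℝ) ≤ 1 := by linarith [θ.2.1]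
  refine tendsto_δ₁ _ fun A => ?_
  have e1 : ∀ t, onesProb ((percOp v θ)^[t] (δ₀ d)) A =
      iter (nb v) (1 - (θ : ℝ)) t e0 A := by
    intro t
    rw [onesProb_iterate]
    congr 1
    exact funext onesProb_zero
  simp_rw [e1]
  have hmono := iter_e0_mono v h0 h1 A
  have hle1 : ∀ t, iter (nb v) (1 - (θ : ℝ)) t e0 A ≤ 1 := fun t => by
    rw [← e1]; exact measureReal_le_one
  have hpow : Tendsto (fun k => dens v θ T k ^ A.card) atTop (𝓝 1) := by
    simpa using h.pow A.card
  rw [tendsto_order]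
  constructor
  · intro a ha
    obtain ⟨k, hk⟩ := ((tendsto_order.1 hpow).1 a ha).exists
    filter_upwards [eventually_ge_atTop (k * T)] with t ht
    exact hk.trans_le ((dens_pow_le v θ T k A).trans (hmono ht))
  · intro a ha
    exact Eventually.of_forall fun t => (hle1 t).trans_lt ha

theorem chaos_of_card (θ : unitInterval) (T : ℕ)
    (h : iter (nb v) (1 - (θ : ℝ)) T (fun B => (B.card : ℝ)) {0} < 1) :
    Tendsto (dens v θ T) atTop (𝓝 1) := by
  have h0 : 0 ≤ 1 - (θ : ℝ) := by linarith [θ.2.2]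
  have h1 : 1 - (θ : ℝ) ≤ 1 := by linarith [θ.2.1]
  set χ := iter (nb v) (1 - (θ : ℝ)) T (fun B => (B.card : ℝ)) {0} with hχ
  have hχ0 : 0 ≤ χ := iter_nonneg _ h0 h1 T (fun B => Nat.cast_nonneg _) _
  have hrec : ∀ k, 1 - dens v θ T (k + 1) ≤ χ * (1 - dens v θ T k) := by
    intro k
    rw [(onesProb_chaos_iterate v θ T k).2]
    set p := dens v θ T k with hp
    have hp0 : 0 ≤ p := dens_nonneg v θ T k
    have hp1 : p ≤ 1 := dens_le_one v θ T k
    have e1 : 1 - iter (nb v) (1 - (θ : ℝ)) T (fun B => p ^ B.card) {0} =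
        iter (nb v) (1 - (θ : ℝ)) T (fun B => 1 - p ^ B.card) {0} := by
      rw [iter_sub, iter_const]
    have e2 : iter (nb v) (1 - (θ : ℝ)) T (fun B => 1 - p ^ B.card) {0} ≤
        iter (nb v) (1 - (θ : ℝ)) T (fun B => (1 - p) * (B.card : ℝ)) {0} := by
      refine iter_mono _ h0 h1 T (fun B => ?_) _
      have := one_add_mul_le_pow (a := p - 1) (by linarith) B.card
      have e3 : 1 + (p - 1) = p := by ring
      rw [e3] at this
      linarith
    rw [e1]
    refine e2.trans (le_of_eq ?_)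
    rw [iter_mul_left, mul_comm]
  have hpow : ∀ k, 1 - dens v θ T k ≤ χ ^ k := by
    intro k
    induction k with
    | zero => rw [dens_zero]; simp
    | succ k ih =>
      rw [pow_succ']
      exact (hrec k).trans (mul_le_mul_of_nonneg_left ih hχ0)
  have hlim := tendsto_pow_atTop_nhds_zero_of_lt_one hχ0 h
  have hlim2 : Tendsto (fun k : ℕ => 1 - χ ^ k) atTop (𝓝 1) := by
    simpa using hlim.const_sub 1
  refine tendsto_of_tendsto_of_tendsto_of_le_of_le hlim2 tendsto_const_nhds ?_ ?_
  · intro k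
    have := hpow k
    show 1 - χ ^ k ≤ dens v θ T k
    linarith
  · intro k
    exact dens_le_one v θ T k

/-! ### Extreme parameters -/

theorem thin_at_zero {α : Type*} [DecidableEq α] (A : Finset α) (f : Finset α → ℝ) :
    thin 0 A f = f ∅ := by
  induction A using Finset.induction_on generalizing f with
  | empty => rw [thin_empty]
  | insert a A ha ih => rw [thin_insert 0 ha, ih, ih]; ring

theorem thin_at_one {α : Type*} [DecidableEq α] (A : Finset α) (f : Finset α → ℝ) :
    thin 1 A f = f A := by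
  induction A using Finset.induction_on generalizing f with
  | empty => rw [thin_empty]
  | insert a A ha ih => rw [thin_insert 1 ha, ih, ih]; ring

theorem iter_at_one (hn : 1 ≤ n) (T : ℕ) (A : Finset (Site d)) (hA : A.Nonempty) :
    iter (nb v) 1 T e0 A = 0 := by
  induction T generalizing A with
  | zero => simp [iter_zero, e0, hA.ne_empty]
  | succ T ih =>
    rw [iter_succ, thin_at_one]
    refine ih _ ?_
    obtain ⟨a, ha⟩ := hA
    exact ⟨a + v ⟨0, hn⟩, Finset.mem_biUnion.2 ⟨a, ha,
      Finset.mem_image.2 ⟨⟨0, hn⟩, Finset.mem_univ _, rfl⟩⟩⟩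

theorem one_mem_chaos (T : ℕ) (hT : 1 ≤ T) : Tendsto (dens v 1 T) atTop (𝓝 1) := by
  refine chaos_of_card v 1 T ?_
  obtain ⟨T, rfl⟩ : ∃ T', T = T' + 1 := ⟨T - 1, by omega⟩
  have h1 : (1 : ℝ) - ((1 : unitInterval) : ℝ) = 0 := by simp
  rw [h1]
  have : ∀ T, iter (nb v) 0 T (fun B => (B.card : ℝ)) ∅ = 0 := by
    intro T
    induction T with
    | zero => simp [iter_zero]
    | succ T ih => rw [iter_succ, thin_at_zero, (nbh v).empty, ih]
  rw [iter_succ, thin_at_zero, (nbh v).empty, this]
  norm_num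

/-! ### Conclusion -/

theorem cost_nonneg {q : ℝ} (h0 : 0 ≤ q) (h1 : q ≤ 1) (T : ℕ) (A : Finset (Site d)) :
    0 ≤ cost (nb v) q T A := by
  induction T generalizing A with
  | zero => exact Nat.cast_nonneg _
  | succ T ih =>
    obtain ⟨G, _, h⟩ := exists_cost_succ (nb v) q T A
    rw [h]
    exact add_nonneg (Nat.cast_nonneg _) (thin_nonneg h0 h1 fun ξ _ => ih _)

/-- Sharpness: if `θ'` is ergodic and `θ' < θ`, then there is `θ'' ≤ θ` such that the expected
population tends to zero. -/
theorem sharp (hn : 1 ≤ n) (θ' θ : unitInterval) (hlt : (θ' : ℝ) < θ)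
    (herg : Tendsto (fun t : ℕ => (percOp v θ')^[t] (δ₀ d)) atTop (𝓝 (δ₁ d))) :
    ∃ θ'' : unitInterval, (θ'' : ℝ) ≤ θ ∧
      Tendsto (fun T => iter (nb v) (1 - (θ'' : ℝ)) T (fun B => (B.card : ℝ)) {0})
        atTop (𝓝 0) := by
  have hext : Tendsto (fun T => iter (nb v) (1 - (θ' : ℝ)) T e0 {0}) atTop (𝓝 1) := by
    refine (tendsto_onesProb _ herg).congr fun t => ?_
    rw [onesProb_iterate]
    congr 1
    exact funext onesProb_zero
  have hθ'0 : (0 : ℝ) < θ' := by
    rcases lt_or_eq_of_le θ'.2.1 with h | h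
    · exact h
    · exfalso
      rw [← h, sub_zero] at hext
      have : Tendsto (fun T => iter (nb v) 1 T e0 {0}) atTop (𝓝 0) := by
        simp_rw [iter_at_one v hn _ {0} (Finset.singleton_nonempty _)]
        exact tendsto_const_nhds
      exact one_ne_zero (tendsto_nhds_unique hext this)
  have hθ1 := θ.2.2
  by_cases hcase : ∀ q ∈ Set.Icc (1 - (θ : ℝ)) (1 - θ'), ∀ T, 1 ≤ cost (nb v) q T {0}
  · exfalso
    have hub : ∀ T, iter (nb v) (1 - (θ' : ℝ)) T e0 {0} * (1 - (1 - (θ : ℝ))) ≤
        1 - (1 - (θ' : ℝ)) := by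
      intro T
      refine upper_bound (nbh v) (by linarith) (by linarith) (by linarith) ?_ T 0
        (fun q hq => hcase q hq T)
      intro q hq0 hq1 T
      refine ⟨((percOp v ⟨1 - q, by linarith, by linarith⟩)^[T] (δ₀ d) :
        ProbabilityMeasure (Config d)), inferInstance, fun B => ?_⟩
      have := onesProb_iterate v ⟨1 - q, by linarith, by linarith⟩ (δ₀ d) T B
      have h2 : onesProb (δ₀ d) = e0 := funext onesProb_zero
      rw [h2] at this
      simp only [sub_sub_cancel] at this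
      exact this.symm
    have := le_of_tendsto (hext.mul_const (1 - (1 - (θ : ℝ)))) (Eventually.of_forall hub)
    linarith
  · push Not at hcase
    obtain ⟨q, hq, L, hL⟩ := hcase
    have hq0 : 0 ≤ q := by linarith [hq.1]
    have hq1 : q ≤ 1 := by linarith [hq.2]
    refine ⟨⟨1 - q, by linarith, by linarith⟩, by simp; linarith [hq.1], ?_⟩
    simp only [sub_sub_cancel]
    refine tendsto_zero_of_rec _ (fun i => iter_nonneg _ hq0 hq1 i (fun B => Nat.cast_nonneg _) _)
      (cost (nb v) q L {0}) (cost_nonneg v hq0 hq1 L {0}) hL L ?_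
    intro T hT M hM
    exact card_le_cost (nbh v) hq0 hq1 _ (fun T a => iter_card_singleton v q T a) L T hT M hM {0}

theorem thetaStar_le (T : ℕ) (hT : 1 ≤ T) : thetaStar v ≤ thetaStarT v T := by
  refine csInf_le_csInf ⟨0, ?_⟩ ⟨1, 1, by simp, one_mem_chaos v T hT⟩ ?_
  · rintro _ ⟨θ, rfl, _⟩
    exact θ.2.1
  · rintro _ ⟨θ, rfl, h⟩
    exact ⟨θ, rfl, ergodic_of_chaos v θ T h⟩

theorem thetaStarT_le (θ : unitInterval) (T : ℕ) (h : Tendsto (dens v θ T) atTop (𝓝 1)) :
    thetaStarT v T ≤ θ := by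
  refine csInf_le ⟨0, ?_⟩ ⟨θ, rfl, h⟩
  rintro _ ⟨θ, rfl, _⟩
  exact θ.2.1

theorem main (hn : 1 ≤ n) : Tendsto (thetaStarT v) atTop (𝓝 (thetaStar v)) := by
  rw [tendsto_order]
  constructor
  · intro a ha
    filter_upwards [eventually_ge_atTop 1] with T hT
    exact ha.trans_le (thetaStar_le v T hT)
  · intro b hb
    have hne : {r : ℝ | ∃ θ : unitInterval, (θ : ℝ) = r ∧
        Tendsto (fun t : ℕ => (percOp v θ)^[t] (δ₀ d)) atTop (𝓝 (δ₁ d))}.Nonempty :=
      ⟨1, 1, by simp, ergodic_of_chaos v 1 1 (one_mem_chaos v 1 le_rfl)⟩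
    obtain ⟨_, ⟨θ', rfl, herg⟩, hθ'⟩ := exists_lt_of_csInf_lt hne hb
    rcases lt_or_eq_of_le θ'.2.2 with h1 | h1
    · set r := min 1 (((θ' : ℝ) + b) / 2) with hr
      have hr1 : r ≤ 1 := min_le_left _ _
      have hr2 : (θ' : ℝ) < r := lt_min h1 (by linarith)
      have hr3 : r < b := (min_le_right _ _).trans_lt (by linarith)
      obtain ⟨θ'', h2, h3⟩ := sharp v hn θ' ⟨r, θ'.2.1.trans hr2.le, hr1⟩ hr2 herg
      filter_upwards [(tendsto_order.1 h3).2 1 one_pos] with T hT
      exact (thetaStarT_le v θ'' T (chaos_of_card v θ'' T hT)).trans_lt (h2.trans_lt hr3)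
    · filter_upwards [eventually_ge_atTop 1] with T hT
      refine (thetaStarT_le v 1 T (one_mem_chaos v T hT)).trans_lt ?_
      rw [h1] at hθ'
      simpa using hθ'

end Pool.Agent.Lib.MP_2e2eba_pr
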