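import Pool.Agent.Lib.MP_2e2eba_pr.Iter

/-!
# Sharpness for oriented percolation, in the language of the thinning chain

This is a Markovian version of the Duminil-Copin and Tassion argument.
-/

open Finset Filter Topology MeasureTheory

set_option linter.unusedSectionVars false
set_option linter.unusedVariables false

namespace Pool.Agent.Lib.MP_2e2eba_pr

variable {α : Type*} [DecidableEq α]

/-- `cost N q T A`: the least expected number of frozen particles, when the chain is run for `T`
steps from `A` and before every step an arbitrary subset of the particles is frozen for ever. -/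
noncomputable def cost (N : Finset α → Finset α) (q : ℝ) : ℕ → Finset α → ℝ
  | 0, A => A.card
  | T + 1, A => A.powerset.inf' ⟨∅, Finset.empty_mem_powerset A⟩
      (fun G => ((A \ G).card : ℝ) + thin q G (fun ξ => cost N q T (N ξ)))

theorem cost_succ_le (N : Finset α → Finset α) (q : ℝ) (T : ℕ) {A G : Finset α} (hG : G ⊆ A) :
    cost N q (T + 1) A ≤ ((A \ G).card : ℝ) + thin q G (fun ξ => cost N q T (N ξ)) :=
  Finset.inf'_le (s := A.powerset)
    (fun G => ((A \ G).card : ℝ) + thin q G (fun ξ => cost N q T (N ξ)))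
    (Finset.mem_powerset.2 hG)

theorem exists_cost_succ (N : Finset α → Finset α) (q : ℝ) (T : ℕ) (A : Finset α) :
    ∃ G ⊆ A, cost N q (T + 1) A =
      ((A \ G).card : ℝ) + thin q G (fun ξ => cost N q T (N ξ)) := by
  obtain ⟨G, hG, h⟩ := Finset.exists_mem_eq_inf' (s := A.powerset)
    ⟨∅, Finset.empty_mem_powerset A⟩
    (fun G => ((A \ G).card : ℝ) + thin q G (fun ξ => cost N q T (N ξ)))
  exact ⟨G, Finset.mem_powerset.1 hG, h⟩

/-- Indicator that `x` equals one on `B`. -/
noncomputable def ones (x : α → Bool) (B : Finset α) : ℝ := if ∀ s ∈ B, x s = true then 1 else 0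

theorem ones_eq_indicator (x : α → Bool) (B : Finset α) :
    ones x B = ({x : α → Bool | ∀ s ∈ B, x s = true}).indicator 1 x := by
  by_cases h : ∀ s ∈ B, x s = true <;> simp [ones, Set.indicator, h]

/-- Hypotheses on the neighbourhood map. -/
structure Nbh (N : Finset α → Finset α) : Prop where
  mono : Monotone N
  union : ∀ A B, N (A ∪ B) = N A ∪ N B
  empty : N ∅ = ∅

theorem Nbh.eq_biUnion {N : Finset α → Finset α} (h : Nbh N) (A : Finset α) :
    N A = A.biUnion fun a => N {a} := by
  induction A using Finset.induction_on with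
  | empty => simp [h.empty]
  | insert a A ha ih => rw [Finset.insert_eq, h.union, ih, ← Finset.insert_eq,
      Finset.biUnion_insert]

theorem ones_N {N : Finset α → Finset α} (h : Nbh N) (x : α → Bool) {A ξ : Finset α}
    (hξ : ξ ⊆ A) :
    ones x (N ξ) = if ξ ⊆ A.filter (fun a => ∀ s ∈ N {a}, x s = true) then 1 else 0 := by
  unfold ones
  congr 1
  rw [h.eq_biUnion ξ]
  apply propext
  constructor
  · intro h1 a ha
    rw [Finset.mem_filter]
    exact ⟨hξ ha, fun s hs => h1 s (Finset.mem_biUnion.2 ⟨a, ha, hs⟩)⟩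
  · intro h1 s hs
    obtain ⟨a, ha, hs⟩ := Finset.mem_biUnion.1 hs
    exact (Finset.mem_filter.1 (h1 ha)).2 s hs

theorem thin_ones {N : Finset α → Finset α} (h : Nbh N) (q : ℝ) (x : α → Bool) (A : Finset α) :
    thin q A (fun ξ => ones x (N ξ)) =
      (1 - q) ^ (A \ A.filter (fun a => ∀ s ∈ N {a}, x s = true)).card := by
  have h1 := thin_subset q A (A.filter (fun a => ∀ s ∈ N {a}, x s = true))
    (Finset.filter_subset _ _) (fun _ => (1 : ℝ))
  rw [thin_const, mul_one] at h1
  rw [← h1]
  exact thin_congr fun ξ hξ => ones_N h x hξ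

/-- The pointwise inequality behind the differential inequality. -/
theorem pointwise {N : Finset α → Finset α} (h : Nbh N) {q : ℝ} (h0 : 0 ≤ q) (h1 : q ≤ 1)
    (T : ℕ) (x : α → Bool) (A : Finset α) :
    cost N q (T + 1) A * thin q A (fun ξ => ones x (N ξ)) ≤
      thin q A (fun ξ => ∑ s ∈ A \ ξ, (ones x (N ξ) - ones x (N (insert s ξ)))) +
      thin q A (fun ξ => cost N q T (N ξ) * ones x (N ξ)) := by
  set G := A.filter (fun a => ∀ s ∈ N {a}, x s = true) with hG
  have hGA : G ⊆ A := Finset.filter_subset _ _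
  rw [thin_ones h]
  rw [← hG]
  have e1 : thin q A (fun ξ => ∑ s ∈ A \ ξ, (ones x (N ξ) - ones x (N (insert s ξ)))) +
      thin q A (fun ξ => cost N q T (N ξ) * ones x (N ξ)) =
      thin q A (fun ξ => if ξ ⊆ G then
        ((A \ G).card : ℝ) + cost N q T (N ξ) else 0) := by
    rw [← thin_add]
    refine thin_congr fun ξ hξ => ?_
    have hs : ∀ s ∈ A \ ξ, ones x (N (insert s ξ)) = if insert s ξ ⊆ G then 1 else 0 := by
      intro s hs
      exact ones_N h x (Finset.insert_subset (Finset.mem_sdiff.1 hs).1 hξ)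
    rw [ones_N h x hξ, ← hG]
    by_cases hξG : ξ ⊆ G
    · simp only [hξG, if_true, mul_one]
      congr 1
      have hs2 : ∀ s ∈ A \ ξ, (1 : ℝ) - ones x (N (insert s ξ)) = if s ∈ A \ G then 1 else 0 := by
        intro s hs'
        rw [hs s hs']
        by_cases hsG : s ∈ G
        · have h1 : insert s ξ ⊆ G := Finset.insert_subset hsG hξG
          simp [h1, hsG]
        · have h1 : ¬ insert s ξ ⊆ G := fun hh => hsG (hh (Finset.mem_insert_self _ _))
          simp [h1, hsG, (Finset.mem_sdiff.1 hs').1]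
      rw [Finset.sum_congr rfl hs2, Finset.sum_ite_mem, Finset.sum_const, nsmul_eq_mul, mul_one]
      congr 2
      ext s
      simp only [Finset.mem_inter, Finset.mem_sdiff]
      constructor
      · rintro ⟨_, h2⟩
        exact h2
      · rintro ⟨h2, h3⟩
        exact ⟨⟨h2, fun h4 => h3 (hξG h4)⟩, h2, h3⟩
    · simp only [hξG, if_false, mul_zero, add_zero]
      refine Finset.sum_eq_zero fun s hs' => ?_
      rw [hs s hs']
      have h1 : ¬ insert s ξ ⊆ G := fun hh => hξG ((Finset.subset_insert _ _).trans hh)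
      simp [h1]
  rw [e1, thin_subset q A G hGA, thin_add, thin_const, mul_comm]
  exact mul_le_mul_of_nonneg_left (cost_succ_le N q T hGA) (pow_nonneg (by linarith) _)

section Integral

variable (μ : Measure (α → Bool)) [IsProbabilityMeasure μ]

theorem measurableSet_ones [Countable α] (B : Finset α) :
    MeasurableSet {x : α → Bool | ∀ s ∈ B, x s = true} := by
  have : {x : α → Bool | ∀ s ∈ B, x s = true} = ⋂ s ∈ B, (fun x => x s) ⁻¹' {true} := by
    ext x; simp
  rw [this]
  exact Finset.measurableSet_biInter _ fun s _ => measurable_pi_apply s (measurableSet_singleton _)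

theorem integrable_ones [Countable α] (B : Finset α) : Integrable (fun x => ones x B) μ := by
  simp_rw [ones_eq_indicator]
  exact (integrable_const (1 : ℝ)).indicator (measurableSet_ones B)

theorem integral_ones [Countable α] (B : Finset α) :
    ∫ x, ones x B ∂μ = μ.real {x : α → Bool | ∀ s ∈ B, x s = true} := by
  simp_rw [ones_eq_indicator]
  exact integral_indicator_one (measurableSet_ones B)

theorem integrable_thin (q : ℝ) (A : Finset α) (F : Finset α → (α → Bool) → ℝ)
    (hF : ∀ ξ, Integrable (F ξ) μ) : Integrable (fun x => thin q A (fun ξ => F ξ x)) μ := by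
  unfold thin
  exact integrable_finsetSum _ fun ξ _ => (hF ξ).const_mul _

theorem integral_thin (q : ℝ) (A : Finset α) (F : Finset α → (α → Bool) → ℝ)
    (hF : ∀ ξ, Integrable (F ξ) μ) :
    ∫ x, thin q A (fun ξ => F ξ x) ∂μ = thin q A (fun ξ => ∫ x, F ξ x ∂μ) := by
  unfold thin
  rw [integral_finsetSum _ fun ξ _ => (hF ξ).const_mul _]
  exact Finset.sum_congr rfl fun ξ _ => integral_const_mul _ _

end Integral

/-- The integrated inequality. -/
theorem integrated [Countable α] {N : Finset α → Finset α} (h : Nbh N) {q : ℝ} (h0 : 0 ≤ q)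
    (h1 : q ≤ 1) (T : ℕ) (A : Finset α) (μ : Measure (α → Bool)) [IsProbabilityMeasure μ]
    (u : Finset α → ℝ) (hu : ∀ B, u B = μ.real {x : α → Bool | ∀ s ∈ B, x s = true}) :
    cost N q (T + 1) A * thin q A (fun ξ => u (N ξ)) ≤
      thin q A (fun ξ => ∑ s ∈ A \ ξ, (u (N ξ) - u (N (insert s ξ)))) +
      thin q A (fun ξ => cost N q T (N ξ) * u (N ξ)) := by
  have hu' : ∀ B, u B = ∫ x, ones x B ∂μ := fun B => by rw [hu, integral_ones]
  have i1 : ∀ B, Integrable (fun x => ones x B) μ := integrable_ones μ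
  have i2 : ∀ ξ : Finset α, Integrable
      (fun x => ∑ s ∈ A \ ξ, (ones x (N ξ) - ones x (N (insert s ξ)))) μ := fun ξ =>
    integrable_finsetSum _ fun s _ => (i1 _).sub (i1 _)
  have i3 : ∀ ξ : Finset α, Integrable (fun x => cost N q T (N ξ) * ones x (N ξ)) μ := fun ξ =>
    (i1 _).const_mul _
  have e1 : thin q A (fun ξ => u (N ξ)) = ∫ x, thin q A (fun ξ => ones x (N ξ)) ∂μ := by
    rw [integral_thin μ q A (fun ξ x => ones x (N ξ)) fun ξ => i1 _]
    exact thin_congr fun ξ _ => hu' _
  have e2 : thin q A (fun ξ => ∑ s ∈ A \ ξ, (u (N ξ) - u (N (insert s ξ)))) =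
      ∫ x, thin q A (fun ξ => ∑ s ∈ A \ ξ, (ones x (N ξ) - ones x (N (insert s ξ)))) ∂μ := by
    rw [integral_thin μ q A
      (fun ξ x => ∑ s ∈ A \ ξ, (ones x (N ξ) - ones x (N (insert s ξ)))) i2]
    refine thin_congr fun ξ _ => ?_
    have i4 : ∀ s ∈ A \ ξ, Integrable (fun x => ones x (N ξ) - ones x (N (insert s ξ))) μ :=
      fun s _ => (i1 _).sub (i1 _)
    show _ = ∫ x, ∑ s ∈ A \ ξ, (fun s x => ones x (N ξ) - ones x (N (insert s ξ))) s x ∂μ
    rw [integral_finsetSum _ i4]
    refine Finset.sum_congr rfl fun s _ => ?_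
    rw [integral_sub (i1 _) (i1 _), hu', hu']
  have e3 : thin q A (fun ξ => cost N q T (N ξ) * u (N ξ)) =
      ∫ x, thin q A (fun ξ => cost N q T (N ξ) * ones x (N ξ)) ∂μ := by
    rw [integral_thin μ q A (fun ξ x => cost N q T (N ξ) * ones x (N ξ)) i3]
    refine thin_congr fun ξ _ => ?_
    rw [integral_const_mul, hu']
  rw [e1, e2, e3, ← integral_const_mul, ← integral_add (integrable_thin μ q A _ i2)
    (integrable_thin μ q A _ i3)]
  refine integral_mono ((integrable_thin μ q A _ fun ξ => i1 _).const_mul _)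
    ((integrable_thin μ q A _ i2).add (integrable_thin μ q A _ i3)) fun x => ?_
  exact pointwise h h0 h1 T x A

/-- The initial functional: `1` at the empty set, `0` elsewhere. -/
noncomputable def e0 (A : Finset α) : ℝ := if A = ∅ then 1 else 0

/-- The differential inequality. -/
theorem diff_ineq [Countable α] {N : Finset α → Finset α} (h : Nbh N) {q : ℝ} (h0 : 0 ≤ q)
    (h1 : q ≤ 1)
    (hrep : ∀ T, ∃ μ : Measure (α → Bool), IsProbabilityMeasure μ ∧
      ∀ B, iter N q T e0 B = μ.real {x : α → Bool | ∀ s ∈ B, x s = true})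
    (T : ℕ) (A : Finset α) :
    ∃ D, HasDerivAt (fun r => iter N r T e0 A) D q ∧
      (1 - q) * D ≤ - (cost N q T A * iter N q T e0 A) := by
  induction T generalizing A with
  | zero =>
    refine ⟨0, ?_, ?_⟩
    · simpa [iter_zero] using hasDerivAt_const q (e0 A)
    · rw [iter_zero]
      by_cases hA : A = ∅
      · subst hA; simp [cost]
      · simp [e0, hA]
  | succ T ih =>
    choose D hD hD' using ih
    obtain ⟨E, hE, hE'⟩ := thin_hasDerivAt q A (fun r ξ => iter N r T e0 (N ξ))
      (fun ξ => D (N ξ)) (fun ξ => hD (N ξ))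
    refine ⟨E, hE, ?_⟩
    obtain ⟨μ, hμ, hu⟩ := hrep T
    have key := integrated h h0 h1 T A μ (iter N q T e0) hu
    rw [hE', iter_succ]
    have s1 : thin q A (fun ξ => ∑ s ∈ A \ ξ,
          (iter N q T e0 (N (insert s ξ)) - iter N q T e0 (N ξ))) =
        - thin q A (fun ξ => ∑ s ∈ A \ ξ,
          (iter N q T e0 (N ξ) - iter N q T e0 (N (insert s ξ)))) := by
      have : (fun ξ => ∑ s ∈ A \ ξ,
          (iter N q T e0 (N (insert s ξ)) - iter N q T e0 (N ξ))) =
          fun ξ => (-1) * ∑ s ∈ A \ ξ,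
          (iter N q T e0 (N ξ) - iter N q T e0 (N (insert s ξ))) := by
        funext ξ
        rw [Finset.mul_sum]
        exact Finset.sum_congr rfl fun s _ => by ring
      rw [this, thin_mul_left]
      ring
    have s2 : thin q A (fun ξ => (1 - q) * D (N ξ)) ≤
        - thin q A (fun ξ => cost N q T (N ξ) * iter N q T e0 (N ξ)) := by
      have : - thin q A (fun ξ => cost N q T (N ξ) * iter N q T e0 (N ξ)) =
          thin q A (fun ξ => -1 * (cost N q T (N ξ) * iter N q T e0 (N ξ))) := by
        rw [thin_mul_left]; ring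
      rw [this]
      refine thin_mono h0 h1 fun ξ _ => ?_
      have := hD' (N ξ)
      linarith
    rw [s1]
    linarith

/-- If the cost of the singletons is at least one, survival is likely at larger parameters. -/
theorem upper_bound [Countable α] {N : Finset α → Finset α} (h : Nbh N) {a b : ℝ} (h0 : 0 ≤ a)
    (hab : a ≤ b) (hb : b < 1)
    (hrep : ∀ q, 0 ≤ q → q ≤ 1 → ∀ T, ∃ μ : Measure (α → Bool), IsProbabilityMeasure μ ∧
      ∀ B, iter N q T e0 B = μ.real {x : α → Bool | ∀ s ∈ B, x s = true})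
    (T : ℕ) (o : α) (hc : ∀ q ∈ Set.Icc a b, 1 ≤ cost N q T {o}) :
    iter N b T e0 {o} * (1 - a) ≤ 1 - b := by
  have hD : ∀ q ∈ Set.Icc a b, ∃ D, HasDerivAt (fun r => iter N r T e0 {o}) D q ∧
      (1 - q) * D ≤ - iter N q T e0 {o} := by
    intro q hq
    have hq0 : 0 ≤ q := h0.trans hq.1
    have hq1 : q ≤ 1 := hq.2.trans hb.le
    obtain ⟨D, hD, hD'⟩ := diff_ineq h hq0 hq1 (hrep q hq0 hq1) T {o}
    refine ⟨D, hD, hD'.trans ?_⟩
    have h2 : 0 ≤ iter N q T e0 {o} :=
      iter_nonneg N hq0 hq1 T (fun B => by unfold e0; split_ifs <;> norm_num) _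
    have := mul_le_mul_of_nonneg_right (hc q hq) h2
    linarith
  have hanti : AntitoneOn (fun r => iter N r T e0 {o} / (1 - r)) (Set.Icc a b) := by
    have hder : ∀ q ∈ Set.Icc a b, ∃ D', HasDerivAt (fun r => iter N r T e0 {o} / (1 - r)) D' q ∧
        D' ≤ 0 := by
      intro q hq
      obtain ⟨D, hD, hD'⟩ := hD q hq
      have h1q : 0 < 1 - q := by linarith [hq.2]
      refine ⟨_, hD.div ((hasDerivAt_id q).const_sub 1) h1q.ne', ?_⟩
      apply div_nonpos_of_nonpos_of_nonneg
      · linarith
      · positivity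
    refine antitoneOn_of_deriv_nonpos (convex_Icc a b) ?_ ?_ ?_
    · intro q hq
      obtain ⟨D', hD', _⟩ := hder q hq
      exact hD'.continuousAt.continuousWithinAt
    · intro q hq
      rw [interior_Icc] at hq
      obtain ⟨D', hD', _⟩ := hder q (Set.Ioo_subset_Icc_self hq)
      exact hD'.differentiableAt.differentiableWithinAt
    · intro q hq
      rw [interior_Icc] at hq
      obtain ⟨D', hD', h2⟩ := hder q (Set.Ioo_subset_Icc_self hq)
      rw [hD'.deriv]
      exact h2
  have h2 := hanti (Set.left_mem_Icc.2 hab) (Set.right_mem_Icc.2 hab) hab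
  have ha1 : 0 < 1 - a := by linarith
  have hb1 : 0 < 1 - b := by linarith
  simp only at h2
  rw [div_le_div_iff₀ hb1 ha1] at h2
  have h3 : iter N a T e0 {o} ≤ 1 := by
    have := iter_mono N h0 (hab.trans hb.le) T (f := e0) (g := fun _ => (1 : ℝ))
      (fun B => by unfold e0; split_ifs <;> norm_num) {o}
    rwa [iter_const] at this
  nlinarith

/-- If the cost of a singleton is less than one, the expected population tends to zero. -/
theorem card_le_cost {N : Finset α → Finset α} (h : Nbh N) {q : ℝ} (h0 : 0 ≤ q) (h1 : q ≤ 1)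
    (χ : ℕ → ℝ) (hχ : ∀ T a, iter N q T (fun B => (B.card : ℝ)) {a} = χ T)
    (L T : ℕ) (hLT : L ≤ T) (M : ℝ) (hM : ∀ i, T - L ≤ i → i ≤ T → χ i ≤ M) (A : Finset α) :
    iter N q T (fun B => (B.card : ℝ)) A ≤ cost N q L A * M := by
  induction L generalizing T A with
  | zero =>
    have h2 := iter_card_le N h.mono h.union h.empty h0 h1 T (χ T) (hχ T) A
    have h3 := hM T (by omega) le_rfl
    have h4 : (0 : ℝ) ≤ A.card := Nat.cast_nonneg _
    exact h2.trans (mul_le_mul_of_nonneg_left h3 h4)
  | succ L ih =>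
    obtain ⟨T, rfl⟩ : ∃ T', T = T' + 1 := ⟨T - 1, by omega⟩
    obtain ⟨G, hG, hcost⟩ := exists_cost_succ N q L A
    rw [hcost]
    have e1 : A = (A \ G) ∪ G := (Finset.sdiff_union_of_subset hG).symm
    have e2 := iter_subadd N h.mono h.union h0 h1 (T + 1) (fun B => (B.card : ℝ))
      (fun A B => by exact_mod_cast Finset.card_union_le A B) (A \ G) G
    rw [← e1] at e2
    have e3 := iter_card_le N h.mono h.union h.empty h0 h1 (T + 1) (χ (T + 1)) (hχ (T + 1)) (A \ G)
    have e4 : ((A \ G).card : ℝ) * χ (T + 1) ≤ ((A \ G).card : ℝ) * M :=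
      mul_le_mul_of_nonneg_left (hM (T + 1) (by omega) le_rfl) (Nat.cast_nonneg _)
    have e5 : iter N q (T + 1) (fun B => (B.card : ℝ)) G ≤
        thin q G (fun ξ => cost N q L (N ξ)) * M := by
      rw [iter_succ, mul_comm, ← thin_mul_left]
      refine thin_mono h0 h1 fun ξ _ => ?_
      rw [mul_comm]
      exact ih T (by omega) (fun i hi hi' => hM i (by omega) (by omega)) _
    linarith

theorem tendsto_zero_of_rec (χ : ℕ → ℝ) (h0 : ∀ i, 0 ≤ χ i) (c : ℝ) (hc0 : 0 ≤ c) (hc1 : c < 1)
    (L : ℕ) (h : ∀ T, L ≤ T → ∀ M : ℝ, (∀ i, T - L ≤ i → i ≤ T → χ i ≤ M) → χ T ≤ c * M) :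
    Tendsto χ atTop (𝓝 0) := by
  -- boundedness
  obtain ⟨B, hB⟩ : ∃ B, ∀ i, i ≤ L → χ i ≤ B := by
    refine ⟨∑ i ∈ Finset.range (L + 1), χ i, fun i hi => ?_⟩
    exact Finset.single_le_sum (f := χ) (fun j _ => h0 j) (Finset.mem_range.2 (by omega))
  have hbd : ∀ i, χ i ≤ B := by
    intro i
    induction i using Nat.strong_induction_on with
    | _ i ih =>
      by_cases hi : i ≤ L
      · exact hB i hi
      · by_contra hcon
        push Not at hcon
        have h2 := h i (by omega) (χ i) (fun j hj hj' => by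
          rcases Nat.lt_or_ge j i with hlt | hge
          · exact (ih j hlt).trans hcon.le
          · have : j = i := by omega
            rw [this])
        have h3 := h0 0
        have h4 := hB 0 (Nat.zero_le _)
        have h5 : 0 < χ i := by linarith
        nlinarith
  have hB0 : 0 ≤ B := (h0 0).trans (hbd 0)
  have hpow : ∀ k i, k * (L + 1) ≤ i → χ i ≤ c ^ k * B := by
    intro k
    induction k with
    | zero => intro i _; simpa using hbd i
    | succ k ih =>
      intro i hi
      have hi' : k * (L + 1) + (L + 1) ≤ i := by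
        calc k * (L + 1) + (L + 1) = (k + 1) * (L + 1) := by ring
          _ ≤ i := hi
      have := h i (by omega) (c ^ k * B) (fun j hj hj' => ih j (by omega))
      rw [pow_succ']
      linarith
  rw [Metric.tendsto_atTop]
  intro ε hε
  have hlim : Tendsto (fun k : ℕ => c ^ k * B) atTop (𝓝 (0 * B)) :=
    (tendsto_pow_atTop_nhds_zero_of_lt_one hc0 hc1).mul_const B
  rw [zero_mul] at hlim
  obtain ⟨k, hk⟩ := ((tendsto_order.1 hlim).2 ε hε).exists
  refine ⟨k * (L + 1), fun i hi => ?_⟩
  rw [Real.dist_eq, sub_zero, abs_of_nonneg (h0 i)]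
  exact (hpow k i hi).trans_lt hk

end Pool.Agent.Lib.MP_2e2eba_pr
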