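import Pool.Agent.Lib.MP_2e2eba_pr.Defs
import Pool.Agent.Lib.MP_2e2eba_pr.Sharp

/-!
# Percolation operators act on all ones on `A` by thinning
-/

open Finset Filter Topology MeasureTheory ProbabilityTheory

namespace Pool.Agent.Lib.MP_2e2eba_pr

variable {d n : ℕ} (v : Fin n → Site d)

/-- The set of neighbours of the points of `A`. -/
def nb (A : Finset (Site d)) : Finset (Site d) :=
  A.biUnion fun s => Finset.univ.image fun i => s + v i

theorem mem_nb_singleton (a s : Site d) : s ∈ nb v {a} ↔ ∃ i, a + v i = s := by
  simp [nb]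

theorem nbh : Nbh (nb v) where
  mono := fun _ _ h => Finset.biUnion_subset_biUnion_of_subset_left _ h
  union := fun A B => by
    ext s
    simp only [nb, Finset.mem_biUnion, Finset.mem_union]
    constructor
    · rintro ⟨a, h | h, h'⟩
      · exact Or.inl ⟨a, h, h'⟩
      · exact Or.inr ⟨a, h, h'⟩
    · rintro (⟨a, h, h'⟩ | ⟨a, h, h'⟩)
      · exact ⟨a, Or.inl h, h'⟩
      · exact ⟨a, Or.inr h, h'⟩
  empty := by simp [nb]

/-- The probability of all ones on `A`. -/
noncomputable def onesProb (μ : ProbabilityMeasure (Config d)) (A : Finset (Site d)) : ℝ :=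
  (μ : Measure (Config d)).real {x | ∀ s ∈ A, x s = true}

theorem noise_ones (θ : unitInterval) (B : Finset (Site d)) :
    (noise d θ : Measure (Config d)) {e | ∀ s ∈ B, e s = true} =
      (ENNReal.ofReal (θ : ℝ)) ^ B.card := by
  have h1 : {e : Config d | ∀ s ∈ B, e s = true} = Set.pi (B : Set (Site d)) (fun _ => {true}) := by
    ext e; simp [Set.mem_pi]
  rw [h1]
  show (Measure.infinitePi fun _ : Site d => bernoulliMeasure true false θ) _ = _
  rw [Measure.infinitePi_pi _ (fun i _ => measurableSet_singleton _)]
  have h2 : bernoulliMeasure true false θ {true} = ENNReal.ofReal (θ : ℝ) := by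
    rw [bernoulliMeasure_apply_of_mem_of_notMem θ (measurableSet_singleton _) (by simp) (by simp)]
    rw [ENNReal.ofReal, ENNReal.coe_inj]
    ext
    simp [θ.2.1]
  rw [h2, Finset.prod_const]

theorem onesProb_percOp (θ : unitInterval) (μ : ProbabilityMeasure (Config d))
    (A : Finset (Site d)) :
    onesProb (percOp v θ μ) A = thin (1 - (θ : ℝ)) A (fun ξ => onesProb μ (nb v ξ)) := by
  have hS : MeasurableSet {x : Config d | ∀ s ∈ A, x s = true} := measurableSet_ones A
  have hS' := (measurable_step v) hS
  have h1 : ((percOp v θ μ : ProbabilityMeasure (Config d)) : Measure (Config d))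
      {x | ∀ s ∈ A, x s = true} = ∫⁻ x, (noise d θ : Measure (Config d))
        ((fun e => (e, x)) ⁻¹' ((fun z : Config d × Config d => step v z.1 z.2) ⁻¹'
          {x | ∀ s ∈ A, x s = true})) ∂(μ : Measure (Config d)) := by
    rw [percOp, ProbabilityMeasure.toMeasure_map, Measure.map_apply (measurable_step v) hS,
      ProbabilityMeasure.toMeasure_prod, Measure.prod_apply_symm hS']
  have h2 : ∀ x : Config d, ((noise d θ : Measure (Config d))
        ((fun e => (e, x)) ⁻¹' ((fun z : Config d × Config d => step v z.1 z.2) ⁻¹'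
          {x | ∀ s ∈ A, x s = true}))).toReal =
      thin (1 - (θ : ℝ)) A (fun ξ => ones x (nb v ξ)) := by
    intro x
    rw [thin_ones (nbh v)]
    have h3 : ((fun e => (e, x)) ⁻¹' ((fun z : Config d × Config d => step v z.1 z.2) ⁻¹'
          {x | ∀ s ∈ A, x s = true})) =
        {e | ∀ s ∈ A \ A.filter (fun a => ∀ s ∈ nb v {a}, x s = true), e s = true} := by
      ext e
      simp only [Set.mem_preimage, Set.mem_ofPred_eq, step_apply_eq_true, Finset.mem_sdiff,
        Finset.mem_filter, mem_nb_singleton]
      constructor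
      · rintro h s ⟨hs, hs'⟩
        rcases h s hs with h | h
        · exact h
        · exact absurd ⟨hs, by rintro _ ⟨i, rfl⟩; exact h i⟩ hs'
      · intro h s hs
        by_cases hx : ∀ i, x (s + v i) = true
        · exact Or.inr hx
        · left
          refine h s ⟨hs, fun hh => hx fun i => hh.2 _ ⟨i, rfl⟩⟩
    rw [h3, noise_ones, ENNReal.toReal_pow, ENNReal.toReal_ofReal θ.2.1]
    congr 1
    ring
  unfold onesProb
  rw [Measure.real, h1, ← integral_toReal]
  · simp_rw [h2]
    rw [integral_thin _ _ _ (fun ξ x => ones x (nb v ξ)) fun ξ => integrable_ones _ _]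
    exact thin_congr fun ξ _ => integral_ones _ _
  · exact (measurable_measure_prodMk_right hS').aemeasurable
  · exact Filter.Eventually.of_forall fun x => measure_lt_top _ _

theorem onesProb_iterate (θ : unitInterval) (μ : ProbabilityMeasure (Config d)) (T : ℕ)
    (A : Finset (Site d)) :
    onesProb ((percOp v θ)^[T] μ) A = iter (nb v) (1 - (θ : ℝ)) T (onesProb μ) A := by
  induction T generalizing A with
  | zero => rfl
  | succ T ih =>
    rw [Function.iterate_succ_apply', onesProb_percOp, iter_succ]
    exact thin_congr fun ξ _ => ih _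

theorem onesProb_zero (A : Finset (Site d)) : onesProb (δ₀ d) A = e0 A := by
  unfold onesProb δ₀ e0
  rw [Measure.real, diracProba_toMeasure_apply' _ (measurableSet_ones A)]
  by_cases hA : A = ∅
  · subst hA; simp
  · have : (fun _ => false) ∉ {x : Config d | ∀ s ∈ A, x s = true} := by
      intro h
      obtain ⟨a, ha⟩ := Finset.nonempty_iff_ne_empty.2 hA
      simpa using h a ha
    rw [Set.indicator_of_notMem this]
    simp [hA]

theorem onesProb_chaos (μ : ProbabilityMeasure (Config d)) (A : Finset (Site d)) :
    onesProb (chaos μ) A = ∏ s ∈ A, onesProb μ {s} := by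
  unfold onesProb
  have h1 : {e : Config d | ∀ s ∈ A, e s = true} = Set.pi (A : Set (Site d)) (fun _ => {true}) := by
    ext e; simp [Set.mem_pi]
  rw [h1]
  show ((Measure.infinitePi fun s : Site d =>
    ((μ.map (measurable_pi_apply s).aemeasurable : ProbabilityMeasure Bool) : Measure Bool)) _).toReal
      = _
  rw [Measure.infinitePi_pi _ (fun i _ => measurableSet_singleton _), ENNReal.toReal_prod]
  refine Finset.prod_congr rfl fun s _ => ?_
  rw [ProbabilityMeasure.toMeasure_map,
    Measure.map_apply (measurable_pi_apply s) (measurableSet_singleton _), Measure.real]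
  congr 2
  ext x
  simp

end Pool.Agent.Lib.MP_2e2eba_pr
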