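import Mathlib

/-!
# Random thinning of a finite set
-/

open Finset

set_option linter.unusedSectionVars false

namespace Pool.Agent.Lib.MP_2e2eba_pr

variable {α : Type*} [DecidableEq α]

/-- `thin q A f` is the expectation of `f ξ` for the random subset `ξ` of `A` that keeps every
element of `A` independently with probability `q`. -/
noncomputable def thin (q : ℝ) (A : Finset α) (f : Finset α → ℝ) : ℝ :=
  ∑ ξ ∈ A.powerset, q ^ ξ.card * (1 - q) ^ (A.card - ξ.card) * f ξ

theorem thin_empty (q : ℝ) (f : Finset α → ℝ) : thin q ∅ f = f ∅ := by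
  simp [thin]

theorem thin_insert (q : ℝ) {a : α} {A : Finset α} (ha : a ∉ A) (f : Finset α → ℝ) :
    thin q (insert a A) f =
      q * thin q A (fun ξ => f (insert a ξ)) + (1 - q) * thin q A f := by
  unfold thin
  rw [Finset.sum_powerset_insert ha, Finset.mul_sum, Finset.mul_sum, add_comm]
  congr 1
  · refine Finset.sum_congr rfl fun ξ hξ => ?_
    rw [Finset.mem_powerset] at hξ
    have h1 : a ∉ ξ := fun h => ha (hξ h)
    rw [Finset.card_insert_of_notMem h1, Finset.card_insert_of_notMem ha,
      Nat.add_sub_add_right, pow_succ]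
    ring
  · refine Finset.sum_congr rfl fun ξ hξ => ?_
    rw [Finset.mem_powerset] at hξ
    have h2 := Finset.card_le_card hξ
    rw [Finset.card_insert_of_notMem ha, Nat.succ_sub h2, pow_succ]
    ring

theorem thin_congr {q : ℝ} {A : Finset α} {f g : Finset α → ℝ}
    (h : ∀ ξ, ξ ⊆ A → f ξ = g ξ) : thin q A f = thin q A g := by
  unfold thin
  refine Finset.sum_congr rfl fun ξ hξ => ?_
  rw [h ξ (Finset.mem_powerset.1 hξ)]

theorem thin_mono {q : ℝ} (h0 : 0 ≤ q) (h1 : q ≤ 1) {A : Finset α} {f g : Finset α → ℝ}
    (h : ∀ ξ, ξ ⊆ A → f ξ ≤ g ξ) : thin q A f ≤ thin q A g := by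
  unfold thin
  refine Finset.sum_le_sum fun ξ hξ => ?_
  have : 0 ≤ q ^ ξ.card * (1 - q) ^ (A.card - ξ.card) :=
    mul_nonneg (pow_nonneg h0 _) (pow_nonneg (by linarith) _)
  exact mul_le_mul_of_nonneg_left (h ξ (Finset.mem_powerset.1 hξ)) this

theorem thin_add (q : ℝ) (A : Finset α) (f g : Finset α → ℝ) :
    thin q A (fun ξ => f ξ + g ξ) = thin q A f + thin q A g := by
  unfold thin
  rw [← Finset.sum_add_distrib]
  exact Finset.sum_congr rfl fun ξ _ => by ring

theorem thin_sub (q : ℝ) (A : Finset α) (f g : Finset α → ℝ) :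
    thin q A (fun ξ => f ξ - g ξ) = thin q A f - thin q A g := by
  unfold thin
  rw [← Finset.sum_sub_distrib]
  exact Finset.sum_congr rfl fun ξ _ => by ring

theorem thin_mul_left (q c : ℝ) (A : Finset α) (f : Finset α → ℝ) :
    thin q A (fun ξ => c * f ξ) = c * thin q A f := by
  unfold thin
  rw [Finset.mul_sum]
  exact Finset.sum_congr rfl fun ξ _ => by ring

theorem thin_const (q c : ℝ) (A : Finset α) : thin q A (fun _ => c) = c := by
  induction A using Finset.induction_on with
  | empty => simp [thin_empty]
  | insert a A ha ih => rw [thin_insert q ha, ih]; ring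

theorem thin_nonneg {q : ℝ} (h0 : 0 ≤ q) (h1 : q ≤ 1) {A : Finset α} {f : Finset α → ℝ}
    (h : ∀ ξ, ξ ⊆ A → 0 ≤ f ξ) : 0 ≤ thin q A f := by
  have := thin_mono h0 h1 (f := fun _ => (0 : ℝ)) (g := f) h
  rwa [thin_const] at this

/-- The trace of the thinning of `C` on a subset `A` is the thinning of `A`. -/
theorem thin_inter (q : ℝ) (C A : Finset α) (f : Finset α → ℝ) :
    thin q C (fun ξ => f (ξ ∩ A)) = thin q (C ∩ A) f := by
  induction C using Finset.induction_on generalizing f with
  | empty => simp [thin_empty]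
  | insert a C ha ih =>
    rw [thin_insert q ha]
    by_cases haA : a ∈ A
    · have h1 : insert a C ∩ A = insert a (C ∩ A) := Finset.insert_inter_of_mem haA
      have h2 : a ∉ C ∩ A := fun h => ha (Finset.mem_inter.1 h).1
      rw [h1, thin_insert q h2, ih]
      have h3 : (fun ξ : Finset α => f (insert a ξ ∩ A)) = fun ξ => f (insert a (ξ ∩ A)) := by
        funext ξ
        rw [Finset.insert_inter_of_mem haA]
      rw [h3, ih (fun ξ => f (insert a ξ))]
    · have h1 : insert a C ∩ A = C ∩ A := Finset.insert_inter_of_notMem haA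
      have h3 : (fun ξ : Finset α => f (insert a ξ ∩ A)) = fun ξ => f (ξ ∩ A) := by
        funext ξ
        rw [Finset.insert_inter_of_notMem haA]
      rw [h1, h3, ih]
      ring

/-- Harris' inequality for the thinning. -/
theorem thin_mul_le {q : ℝ} (h0 : 0 ≤ q) (h1 : q ≤ 1) (A : Finset α) (f g : Finset α → ℝ)
    (hf : Antitone f) (hg : Antitone g) :
    thin q A f * thin q A g ≤ thin q A (fun ξ => f ξ * g ξ) := by
  induction A using Finset.induction_on generalizing f g with
  | empty => simp [thin_empty]
  | insert a A ha ih =>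
    rw [thin_insert q ha, thin_insert q ha, thin_insert q ha]
    have hf' : Antitone fun ξ => f (insert a ξ) := fun ξ η h => hf (Finset.insert_subset_insert a h)
    have hg' : Antitone fun ξ => g (insert a ξ) := fun ξ η h => hg (Finset.insert_subset_insert a h)
    have i1 := ih (fun ξ => f (insert a ξ)) (fun ξ => g (insert a ξ)) hf' hg'
    have i2 := ih f g hf hg
    have e1 : thin q A (fun ξ => f (insert a ξ)) ≤ thin q A f :=
      thin_mono h0 h1 fun ξ _ => hf (Finset.subset_insert a ξ)
    have e2 : thin q A (fun ξ => g (insert a ξ)) ≤ thin q A g :=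
      thin_mono h0 h1 fun ξ _ => hg (Finset.subset_insert a ξ)
    have h1' : 0 ≤ 1 - q := by linarith
    have key : 0 ≤ q * (1 - q) * ((thin q A f - thin q A (fun ξ => f (insert a ξ))) *
        (thin q A g - thin q A (fun ξ => g (insert a ξ)))) :=
      mul_nonneg (mul_nonneg h0 h1') (mul_nonneg (by linarith) (by linarith))
    have j1 := mul_le_mul_of_nonneg_left i1 h0
    have j2 := mul_le_mul_of_nonneg_left i2 h1'
    nlinarith [key, j1, j2]

/-- Thinning conditioned on avoiding `A \ G`. -/
theorem thin_subset (q : ℝ) (A G : Finset α) (hG : G ⊆ A) (h : Finset α → ℝ) :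
    thin q A (fun ξ => if ξ ⊆ G then h ξ else 0) = (1 - q) ^ (A \ G).card * thin q G h := by
  have key : ∀ (B : Finset α), Disjoint B G → ∀ h : Finset α → ℝ,
      thin q (B ∪ G) (fun ξ => if ξ ⊆ G then h ξ else 0) = (1 - q) ^ B.card * thin q G h := by
    intro B
    induction B using Finset.induction_on with
    | empty =>
      intro _ h
      simp only [Finset.empty_union, Finset.card_empty, pow_zero, one_mul]
      exact thin_congr fun ξ hξ => by simp [hξ]
    | insert a B ha ih =>
      intro hdis h
      have haG : a ∉ G := fun hh => (Finset.disjoint_left.1 hdis) (Finset.mem_insert_self a B) hh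
      have hBG : Disjoint B G := Finset.disjoint_of_subset_left (Finset.subset_insert a B) hdis
      have h1 : a ∉ B ∪ G := by simp [ha, haG]
      rw [Finset.insert_union, thin_insert q h1, ih hBG, Finset.card_insert_of_notMem ha]
      have h2 : thin q (B ∪ G) (fun ξ => if insert a ξ ⊆ G then h (insert a ξ) else 0) = 0 := by
        refine (thin_congr fun ξ _ => ?_).trans (thin_const q 0 (B ∪ G))
        have : ¬ insert a ξ ⊆ G := fun hh => haG (hh (Finset.mem_insert_self a ξ))
        simp [this]
      rw [h2]
      ring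
  have h3 : A \ G ∪ G = A := Finset.sdiff_union_of_subset hG
  have := key (A \ G) Finset.sdiff_disjoint h
  rwa [h3] at this

/-- Russo's formula for the thinning. -/
theorem thin_hasDerivAt (q : ℝ) (A : Finset α) (F : ℝ → Finset α → ℝ) (F' : Finset α → ℝ)
    (hF : ∀ ξ, HasDerivAt (fun r => F r ξ) (F' ξ) q) :
    ∃ D, HasDerivAt (fun r => thin r A (F r)) D q ∧
      (1 - q) * D = thin q A (fun ξ => ∑ s ∈ A \ ξ, (F q (insert s ξ) - F q ξ)) +
        thin q A (fun ξ => (1 - q) * F' ξ) := by
  induction A using Finset.induction_on generalizing F F' with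
  | empty =>
    refine ⟨F' ∅, ?_, ?_⟩
    · simpa [thin_empty] using hF ∅
    · simp [thin_empty]
  | insert a A ha ih =>
    obtain ⟨D1, hD1, e1⟩ := ih (fun r ξ => F r (insert a ξ)) (fun ξ => F' (insert a ξ))
      (fun ξ => hF (insert a ξ))
    obtain ⟨D2, hD2, e2⟩ := ih F F' hF
    refine ⟨1 * thin q A (fun ξ => F q (insert a ξ)) + q * D1 +
      ((-1) * thin q A (F q) + (1 - q) * D2), ?_, ?_⟩
    · have hfun : (fun r => thin r (insert a A) (F r)) = fun r =>
          r * thin r A (fun ξ => F r (insert a ξ)) + (1 - r) * thin r A (F r) := by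
        funext r
        rw [thin_insert r ha]
      rw [hfun]
      refine HasDerivAt.add ((hasDerivAt_id q).mul hD1) (HasDerivAt.mul ?_ hD2)
      simpa using (hasDerivAt_id q).const_sub 1
    · rw [thin_insert q ha, thin_insert q ha]
      have g1 : thin q A (fun ξ => ∑ s ∈ insert a A \ insert a ξ,
            (F q (insert s (insert a ξ)) - F q (insert a ξ))) =
          thin q A (fun ξ => ∑ s ∈ A \ ξ,
            (F q (insert a (insert s ξ)) - F q (insert a ξ))) := by
        refine thin_congr fun ξ hξ => ?_
        have h1 : insert a A \ insert a ξ = A \ ξ := by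
          ext s
          simp only [Finset.mem_sdiff, Finset.mem_insert]
          constructor
          · rintro ⟨h | h, h'⟩
            · exact absurd (Or.inl h) h'
            · exact ⟨h, fun hh => h' (Or.inr hh)⟩
          · rintro ⟨h, h'⟩
            refine ⟨Or.inr h, ?_⟩
            rintro (rfl | hh)
            · exact ha h
            · exact h' hh
        rw [h1]
        refine Finset.sum_congr rfl fun s _ => ?_
        rw [Finset.insert_comm]
      have g2 : thin q A (fun ξ => ∑ s ∈ insert a A \ ξ, (F q (insert s ξ) - F q ξ)) =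
          thin q A (fun ξ => F q (insert a ξ)) - thin q A (F q) +
          thin q A (fun ξ => ∑ s ∈ A \ ξ, (F q (insert s ξ) - F q ξ)) := by
        rw [← thin_sub, ← thin_add]
        refine thin_congr fun ξ hξ => ?_
        have h1 : insert a A \ ξ = insert a (A \ ξ) :=
          Finset.insert_sdiff_of_notMem _ (fun h => ha (hξ h))
        have h2 : a ∉ A \ ξ := fun h => ha (Finset.mem_sdiff.1 h).1
        rw [h1, Finset.sum_insert h2]
      rw [g1, g2]
      have e1' : (1 - q) * D1 = thin q A (fun ξ => ∑ s ∈ A \ ξ,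
            (F q (insert a (insert s ξ)) - F q (insert a ξ))) +
          thin q A (fun ξ => (1 - q) * F' (insert a ξ)) := e1
      linear_combination q * e1' + (1 - q) * e2

end Pool.Agent.Lib.MP_2e2eba_pr
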